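import Mathlib

/-!
# An exhaustion lemma: countable unions of maximal measure
-/

namespace Pool.Agent.H78.Loc

open Set MeasureTheory
open scoped ENNReal

/-- In a finite measure space, every family of measurable sets has a countable subfamily (with
the empty set added) whose union almost contains every member. -/
theorem exists_exhaust {Y : Type*} [MeasurableSpace Y] (μ : Measure Y) [IsFiniteMeasure μ]
    (𝒢 : Set (Set Y)) (hm : ∀ B ∈ 𝒢, MeasurableSet B) :
    ∃ B : ℕ → Set Y, (∀ n, B n ∈ 𝒢 ∨ B n = ∅) ∧ ∀ C ∈ 𝒢, μ (C \ ⋃ n, B n) = 0 := by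
  classical
  -- the set of admissible sequences
  let S : Set (ℕ → Set Y) := {B | ∀ n, B n ∈ 𝒢 ∨ B n = ∅}
  let val : (ℕ → Set Y) → ℝ≥0∞ := fun B => μ (⋃ n, B n)
  have hne : (val '' S).Nonempty := ⟨_, ⟨fun _ => ∅, fun _ => Or.inr rfl, rfl⟩⟩
  obtain ⟨u, -, hu, hmem⟩ := exists_seq_tendsto_sSup hne (OrderTop.bddAbove _)
  choose B hB hBu using hmem
  -- merge all sequences
  let D : ℕ → Set Y := fun k => B (Nat.unpair k).1 (Nat.unpair k).2
  have hD : D ∈ S := fun k => hB _ _
  have hsub : ∀ m, (⋃ n, B m n) ⊆ ⋃ k, D k := by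
    intro m x hx
    obtain ⟨n, hn⟩ := mem_iUnion.1 hx
    refine mem_iUnion.2 ⟨Nat.pair m n, ?_⟩
    show x ∈ B (Nat.unpair (Nat.pair m n)).1 (Nat.unpair (Nat.pair m n)).2
    rw [Nat.unpair_pair]
    exact hn
  have hle : sSup (val '' S) ≤ μ (⋃ k, D k) := by
    refine le_of_tendsto' hu fun m => ?_
    rw [← hBu m]
    exact measure_mono (hsub m)
  refine ⟨D, hD, fun C hC => ?_⟩
  -- adding `C` does not increase the measure
  let D' : ℕ → Set Y := fun k => Nat.casesOn k C D
  have hD' : D' ∈ S := by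
    intro k
    cases k with
    | zero => exact Or.inl hC
    | succ k => exact hD k
  have hU : (⋃ k, D' k) = (⋃ k, D k) ∪ C := by
    ext x
    simp only [mem_iUnion, mem_union]
    constructor
    · rintro ⟨k, hk⟩
      cases k with
      | zero => exact Or.inr hk
      | succ k => exact Or.inl ⟨k, hk⟩
    · rintro (⟨k, hk⟩ | h)
      · exact ⟨k + 1, hk⟩
      · exact ⟨0, h⟩
  have hle2 : μ ((⋃ k, D k) ∪ C) ≤ μ (⋃ k, D k) := by
    rw [← hU]
    exact (le_sSup (show val D' ∈ val '' S from ⟨D', hD', rfl⟩)).trans hle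
  have hmD : MeasurableSet (⋃ k, D k) := by
    refine MeasurableSet.iUnion fun k => ?_
    rcases hD k with h | h
    · exact hm _ h
    · rw [h]; exact MeasurableSet.empty
  have h1 : μ (C \ ⋃ k, D k) + μ (⋃ k, D k) = μ ((⋃ k, D k) ∪ C) := by
    rw [union_comm, ← measure_sdiff_add_inter (C ∪ ⋃ k, D k) hmD]
    congr 1
    · rw [union_sdiff_right]
    · rw [inter_eq_right.2 subset_union_right]
  have h2 : μ (C \ ⋃ k, D k) + μ (⋃ k, D k) ≤ 0 + μ (⋃ k, D k) := by
    rw [h1, zero_add]; exact hle2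
  exact le_antisymm ((ENNReal.add_le_add_iff_right (measure_ne_top _ _)).1 h2) (zero_le)

end Pool.Agent.H78.Loc
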