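import Pool.Agent.H78.Loc.Real
import Pool.Agent.H78.Loc.Exhaust

/-!
# The complete subalgebra generated by the random real
-/

namespace Pool.Agent.H78.Loc

open Set Filter Topology MeasureTheory
open scoped ENNReal

/-- Data: an atomless probability measure and a Borel function of the generic slalom avoiding
null sets. -/
structure RData where
  ν : Measure ℝ
  g : Slalom → ℝ
  prob : IsProbabilityMeasure ν
  noAtoms : NullSingletonClass ν
  meas : Measurable g
  avoid : ∀ B, MeasurableSet B → ν B = 0 → ∀ᶠ φ in residual Slalom, g φ ∉ B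

theorem exists_rdata : Nonempty RData := by
  obtain ⟨ν, g, h1, h2, h3, h4⟩ := exists_random
  exact ⟨⟨ν, g, h1, h2, h3, h4⟩⟩

namespace RData

variable (D : RData)

attribute [instance] RData.prob RData.noAtoms

theorem tv_null {B : Set ℝ} (hB : MeasurableSet B) (h : D.ν B = 0) : tv D.g B = ∅ := by
  rw [eq_empty_iff_forall_notMem]
  intro p hp
  refine tv_disjoint hp ?_
  filter_upwards [D.avoid B hB h] with φ hφ _ using hφ

/-- Almost inclusion gives inclusion of truth values. -/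
theorem tv_le_of_ae {B C : Set ℝ} (hB : MeasurableSet B) (hC : MeasurableSet C)
    (h : D.ν (B \ C) = 0) : tv D.g B ⊆ tv D.g C := by
  intro p hp
  filter_upwards [D.avoid _ (hB.diff hC) h,
    show ∀ᶠ φ in residual Slalom, φ ∈ nb p → D.g φ ∈ B from hp] with φ h1 h2 h3
  by_contra h4
  exact h1 ⟨h2 h3, h4⟩

/-- The carrier: all truth values of Borel sets. -/
def carrier : Set (Set LOC) := {U | ∃ B, MeasurableSet B ∧ tv D.g B = U}

theorem sup_mem (A : Set (Set LOC)) (hA : A ⊆ D.carrier) :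
    rosup A ∈ D.carrier := by
  classical
  let 𝒢 : Set (Set ℝ) := {B | MeasurableSet B ∧ tv D.g B ∈ A}
  obtain ⟨B, hB, hex⟩ := exists_exhaust D.ν 𝒢 (fun B hB => hB.1)
  have hBm : ∀ n, MeasurableSet (B n) := fun n => by
    rcases hB n with h | h
    · exact h.1
    · rw [h]; exact MeasurableSet.empty
  have hm : MeasurableSet (⋃ n, B n) := MeasurableSet.iUnion hBm
  refine ⟨⋃ n, B n, hm, ?_⟩
  ext p
  constructor
  · intro hp q hq
    obtain ⟨r, hr, n, hn⟩ := tv_iUnion D.meas hBm (tv_down hp hq)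
    rcases hB n with h | h
    · exact ⟨r, hr, _, h.2, hn⟩
    · rw [h, tv_empty] at hn
      exact absurd hn (notMem_empty _)
  · intro hp
    refine tv_dense D.meas hm fun q hq => ?_
    obtain ⟨r, hr, U, hU, hrU⟩ := hp q hq
    obtain ⟨C, hC, rfl⟩ := hA hU
    exact ⟨r, hr, D.tv_le_of_ae hC hm (hex C ⟨hC, hU⟩) hrU⟩

/-- The complete subalgebra. -/
def alg : CompleteSubalgebra LOC where
  carrier := D.carrier
  regOpen := by
    rintro _ ⟨B, hB, rfl⟩
    exact isRegOpen_tv D.meas hB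
  compl_mem := by
    rintro _ ⟨B, hB, rfl⟩
    exact ⟨Bᶜ, hB.compl, (rocompl_tv D.meas hB).symm⟩
  sup_mem := D.sup_mem

/-- A Borel set of truth value zero which is as large as possible. -/
theorem exists_kernel : ∃ A, MeasurableSet A ∧ tv D.g A = ∅ ∧
    ∀ B, MeasurableSet B → tv D.g B = ∅ → D.ν (B \ A) = 0 := by
  obtain ⟨B, hB, hex⟩ := exists_exhaust D.ν {B | MeasurableSet B ∧ tv D.g B = ∅}
    (fun B hB => hB.1)
  have hBm : ∀ n, MeasurableSet (B n) := fun n => by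
    rcases hB n with h | h
    · exact h.1
    · rw [h]; exact MeasurableSet.empty
  refine ⟨⋃ n, B n, MeasurableSet.iUnion hBm, ?_, fun C hC hC0 => hex C ⟨hC, hC0⟩⟩
  rw [eq_empty_iff_forall_notMem]
  intro p hp
  obtain ⟨q, -, n, hn⟩ := tv_iUnion D.meas hBm hp
  rcases hB n with h | h
  · rw [h.2] at hn; exact hn
  · rw [h, tv_empty] at hn; exact hn

theorem tv_eq_empty_iff {A : Set ℝ} (hA : MeasurableSet A) (hA0 : tv D.g A = ∅)
    (hmax : ∀ B, MeasurableSet B → tv D.g B = ∅ → D.ν (B \ A) = 0) {B : Set ℝ}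
    (hB : MeasurableSet B) : tv D.g B = ∅ ↔ D.ν (B \ A) = 0 := by
  refine ⟨hmax B hB, fun h => ?_⟩
  rw [← subset_empty_iff, ← hA0]
  exact D.tv_le_of_ae hB hA h

/-- Atomless measures split. -/
theorem exists_split (B : Set ℝ) (hB : MeasurableSet B) (h : D.ν B ≠ 0) :
    ∃ C ⊆ B, MeasurableSet C ∧ D.ν C ≠ 0 ∧ D.ν (B \ C) ≠ 0 := by
  by_contra hcon
  push Not at hcon
  -- every Borel subset of `B` is null or conull
  have h01 : ∀ t : ℚ, D.ν (B ∩ Iic (t : ℝ)) = 0 ∨ D.ν (B \ Iic (t : ℝ)) = 0 := by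
    intro t
    by_contra h2
    push Not at h2
    refine h2.2 ?_
    have := hcon (B ∩ Iic (t : ℝ)) inter_subset_left (hB.inter measurableSet_Iic) h2.1
    rwa [sdiff_self_inter] at this
  let S : Set ℝ := ⋂ t : ℚ, {x | (D.ν (B ∩ Iic (t : ℝ)) = 0 → (t : ℝ) < x) ∧
    (D.ν (B ∩ Iic (t : ℝ)) ≠ 0 → x ≤ t)}
  have hS : S.Subsingleton := by
    intro x hx y hy
    by_contra hne
    rcases lt_or_gt_of_ne hne with hlt | hlt
    · obtain ⟨t, ht1, ht2⟩ := exists_rat_btwn hlt
      have hx' := mem_iInter.1 hx t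
      have hy' := mem_iInter.1 hy t
      by_cases h0 : D.ν (B ∩ Iic (t : ℝ)) = 0
      · exact absurd (hx'.1 h0) (not_lt.2 ht1.le)
      · exact absurd (hy'.2 h0) (not_le.2 ht2)
    · obtain ⟨t, ht1, ht2⟩ := exists_rat_btwn hlt
      have hx' := mem_iInter.1 hx t
      have hy' := mem_iInter.1 hy t
      by_cases h0 : D.ν (B ∩ Iic (t : ℝ)) = 0
      · exact absurd (hy'.1 h0) (not_lt.2 ht1.le)
      · exact absurd (hx'.2 h0) (not_le.2 ht2)
  have hBS : D.ν (B \ S) = 0 := by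
    have hsub : B \ S ⊆ ⋃ t : ℚ, B \ {x | (D.ν (B ∩ Iic (t : ℝ)) = 0 → (t : ℝ) < x) ∧
        (D.ν (B ∩ Iic (t : ℝ)) ≠ 0 → x ≤ t)} := by
      rw [← sdiff_iInter]
    refine measure_mono_null hsub (measure_iUnion_null fun t => ?_)
    by_cases h0 : D.ν (B ∩ Iic (t : ℝ)) = 0
    · refine measure_mono_null ?_ h0
      rintro x ⟨hx, hn⟩
      refine ⟨hx, ?_⟩
      by_contra hgt
      exact hn ⟨fun _ => not_le.1 hgt, fun h => absurd h0 h⟩
    · refine measure_mono_null ?_ ((h01 t).resolve_left h0)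
      rintro x ⟨hx, hn⟩
      refine ⟨hx, fun hle => hn ⟨fun h => absurd h h0, fun _ => hle⟩⟩
  refine h (le_antisymm ?_ (zero_le))
  calc D.ν B ≤ D.ν (B \ S ∪ S) := measure_mono fun x hx => by
        by_cases hxS : x ∈ S
        · exact Or.inr hxS
        · exact Or.inl ⟨hx, hxS⟩
    _ ≤ D.ν (B \ S) + D.ν S := measure_union_le _ _
    _ = 0 := by rw [hBS, hS.measure_zero, add_zero]

theorem atomless : D.alg.Atomless := by
  obtain ⟨A, hA, hA0, hmax⟩ := D.exists_kernel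
  rintro _ ⟨B, hB, rfl⟩ hne
  have h1 : D.ν (B \ A) ≠ 0 := fun h =>
    hne.ne_empty ((D.tv_eq_empty_iff hA hA0 hmax hB).2 h)
  obtain ⟨C, hCB, hC, hC1, hC2⟩ := D.exists_split (B \ A) (hB.diff hA) h1
  have hCA : C \ A = C := sdiff_eq_left.2 (disjoint_left.2 fun x hx hxA => (hCB hx).2 hxA)
  have hCne : (tv D.g C).Nonempty := by
    rw [nonempty_iff_ne_empty]
    intro h
    have := (D.tv_eq_empty_iff hA hA0 hmax hC).1 h
    rw [hCA] at this
    exact hC1 this
  have hBC : (tv D.g (B \ C)).Nonempty := by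
    rw [nonempty_iff_ne_empty]
    intro h
    have := (D.tv_eq_empty_iff hA hA0 hmax (hB.diff hC)).1 h
    rw [sdiff_sdiff_comm] at this
    exact hC2 this
  refine ⟨tv D.g C, ⟨C, hC, rfl⟩, hCne, tv_mono (hCB.trans sdiff_subset), fun hsub => ?_⟩
  obtain ⟨p, hp⟩ := hBC
  have hpC : p ∈ tv D.g C := hsub (tv_mono sdiff_subset hp)
  exact tv_disjoint hpC (tv_mono (fun x hx => hx.2) hp)

end RData

end Pool.Agent.H78.Loc
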