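import Pool.Agent.H78.Loc.Alg

/-!
# The random subalgebra adds no Cohen real
-/

namespace Pool.Agent.H78.Loc

open Set Filter Topology MeasureTheory
open scoped ENNReal

namespace RData

variable (D : RData)

/-- No name for a Cohen real below a nonzero element. -/
theorem no_cohen (U : Set LOC) (_hU : U ∈ D.alg.carrier) (hne : U.Nonempty)
    (τ : List Bool → Set LOC) : ¬ IsCohenName D.alg U τ := by
  classical
  intro hτ
  obtain ⟨A, hA, hA0, hmax⟩ := D.exists_kernel
  choose R hRm hR using fun s => (hτ.mem s : τ s ∈ D.carrier)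
  -- exact partitions, indexed by reversed strings
  obtain ⟨B, hB0, hBf, hBt⟩ : ∃ B : List Bool → Set ℝ, B [] = R [] ∧
      (∀ s, B (false :: s) = B s ∩ R (s.reverse ++ [false])) ∧
      (∀ s, B (true :: s) = B s \ R (s.reverse ++ [false])) :=
    ⟨fun s => List.rec (R []) (fun b s X => if b then X \ R (s.reverse ++ [false])
      else X ∩ R (s.reverse ++ [false])) s, rfl, fun s => by simp, fun s => by simp⟩
  have hBm : ∀ s, MeasurableSet (B s) := by
    intro s
    induction s with
    | nil => rw [hB0]; exact hRm []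
    | cons b s ih =>
      cases b with
      | false => rw [hBf]; exact ih.inter (hRm _)
      | true => rw [hBt]; exact ih.diff (hRm _)
  have hreg : ∀ s, IsRegOpen (τ s) := fun s => D.alg.regOpen _ (hτ.mem s)
  have hle : ∀ s b, τ (s ++ [b]) ⊆ τ s := by
    intro s b p hp
    rw [← hτ.split s]
    intro q hq
    refine ⟨q, le_refl _, τ (s ++ [b]), ?_, (hreg _).1 p hp q hq⟩
    cases b <;> simp
  have hBτ : ∀ s : List Bool, tv D.g (B s) = τ s.reverse := by
    intro s
    induction s with
    | nil => rw [hB0, hR]; rfl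
    | cons b s ih =>
      rw [List.reverse_cons]
      cases b with
      | false =>
        rw [hBf, tv_inter, ih, hR]
        exact inter_eq_right.2 (hle _ _)
      | true =>
        rw [hBt, Set.sdiff_eq, tv_inter, ih, ← rocompl_tv D.meas (hRm _), hR]
        ext p
        constructor
        · rintro ⟨hp, hpc⟩
          refine (hreg _).2 p fun q hq => ?_
          rw [← hτ.split] at hp
          obtain ⟨r, hr, V, hV, hrV⟩ := hp q hq
          rcases hV with rfl | hV
          · exact absurd hrV (hpc r (hr.trans hq))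
          · rw [mem_singleton_iff] at hV
            rw [hV] at hrV
            exact ⟨r, hr, hrV⟩
        · intro hp
          refine ⟨hle _ _ hp, fun q hq hqf => ?_⟩
          have : q ∈ τ (s.reverse ++ [false]) ∩ τ (s.reverse ++ [true]) :=
            ⟨hqf, (hreg _).1 p hp q hq⟩
          rw [hτ.disj] at this
          exact this
  -- masses
  let m : List Bool → ℝ≥0∞ := fun s => D.ν (B s \ A)
  have hmsum : ∀ s, m (false :: s) + m (true :: s) = m s := by
    intro s
    show D.ν (B (false :: s) \ A) + D.ν (B (true :: s) \ A) = D.ν (B s \ A)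
    rw [hBf, hBt, ← measure_inter_add_sdiff (B s \ A) (hRm (s.reverse ++ [false]))]
    congr 2
    · ext x; simp only [Set.mem_sdiff, mem_inter_iff]; tauto
    · ext x; simp only [Set.mem_sdiff]; tauto
  have hmtop : ∀ s, m s ≠ ∞ := fun s => measure_ne_top _ _
  have hhalf : ∀ s, ∃ b, m (b :: s) ≤ m s / 2 := by
    intro s
    by_contra hcon
    push Not at hcon
    have h1 := ENNReal.add_lt_add (hcon false) (hcon true)
    rw [ENNReal.add_halves, hmsum] at h1
    exact lt_irrefl _ h1
  have hpow : ∀ n s, ∃ t, m (t ++ s) ≤ m s / 2 ^ n := by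
    intro n
    induction n with
    | zero => exact fun s => ⟨[], by simp⟩
    | succ n ih =>
      intro s
      obtain ⟨t, ht⟩ := ih s
      obtain ⟨b, hb⟩ := hhalf (t ++ s)
      refine ⟨b :: t, ?_⟩
      rw [List.cons_append]
      refine hb.trans ?_
      rw [pow_succ, ENNReal.div_eq_inv_mul, ENNReal.div_eq_inv_mul,
        ENNReal.mul_inv (Or.inl (by simp)) (Or.inl (by simp)), mul_comm (2 ^ n)⁻¹, mul_assoc]
      gcongr
      rwa [← ENNReal.div_eq_inv_mul]
  have hroot : m [] ≠ 0 := by
    intro h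
    have : tv D.g (B []) = ∅ := (D.tv_eq_empty_iff hA hA0 hmax (hBm [])).2 h
    rw [hBτ [], List.reverse_nil, hτ.nil] at this
    exact hne.ne_empty this
  have hmle : ∀ t s, m (t ++ s) ≤ m s := by
    intro t s
    induction t with
    | nil => exact le_refl _
    | cons b t ih =>
      refine le_trans ?_ ih
      rw [List.cons_append, ← hmsum (t ++ s)]
      cases b
      · exact le_self_add
      · exact le_add_self
  -- choose small extensions of all strings
  obtain ⟨δ, hδ, hsum⟩ := ENNReal.exists_pos_sum_of_countable hroot (List Bool)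
  have hext : ∀ s, ∃ t, m (t ++ s) ≤ δ s := by
    intro s
    have h0 : Tendsto (fun n : ℕ => m s / 2 ^ n) atTop (𝓝 0) := by
      have h2 : Tendsto (fun n : ℕ => ((2 : ℝ≥0∞)⁻¹) ^ n) atTop (𝓝 0) :=
        ENNReal.tendsto_pow_atTop_nhds_zero_of_lt_one (by
          rw [ENNReal.inv_lt_one]; exact ENNReal.one_lt_two)
      have h3 := ENNReal.Tendsto.const_mul (a := m s) h2 (Or.inr (hmtop s))
      rw [mul_zero] at h3
      refine h3.congr fun n => ?_
      rw [ENNReal.div_eq_inv_mul, mul_comm, ENNReal.inv_pow]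
    obtain ⟨n, hn⟩ := (h0.eventually (ge_mem_nhds (ENNReal.coe_pos.2 (hδ s)))).exists
    obtain ⟨t, ht⟩ := hpow n s
    exact ⟨t, ht.trans hn⟩
  choose e he using hext
  -- the dense set
  let W : Set ℝ := ⋃ s, B (e s ++ s)
  have hWm : MeasurableSet W := MeasurableSet.iUnion fun s => hBm _
  have hWsmall : D.ν (W \ A) < m [] := by
    have h1 : W \ A = ⋃ s, (B (e s ++ s) \ A) := by rw [iUnion_sdiff]
    rw [h1]
    exact lt_of_le_of_lt ((measure_iUnion_le _).trans (ENNReal.tsum_le_tsum he)) hsum
  have hrest : (tv D.g (B [] \ W)).Nonempty := by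
    rw [nonempty_iff_ne_empty]
    intro h
    have h2 := (D.tv_eq_empty_iff hA hA0 hmax ((hBm []).diff hWm)).1 h
    have h3 : m [] ≤ D.ν ((B [] \ W) \ A) + D.ν (W \ A) := by
      refine (measure_mono ?_).trans (measure_union_le _ _)
      rintro x ⟨hx1, hx2⟩
      by_cases hxW : x ∈ W
      · exact Or.inr ⟨hxW, hx2⟩
      · exact Or.inl ⟨⟨hx1, hxW⟩, hx2⟩
    rw [h2, zero_add] at h3
    exact absurd h3 (not_le.2 hWsmall)
  obtain ⟨p, hp⟩ := hrest
  have hpU : p ∈ U := by
    have : p ∈ tv D.g (B []) := tv_mono sdiff_subset hp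
    rwa [hBτ [], List.reverse_nil, hτ.nil] at this
  rw [← hτ.meets (Set.range fun s : List Bool => (e s.reverse ++ s.reverse).reverse) (by
    intro s
    refine ⟨_, ⟨s, rfl⟩, ?_⟩
    simp only [List.reverse_append, List.reverse_reverse]
    exact List.prefix_append _ _)] at hpU
  obtain ⟨r, hr, V, hV, hrV⟩ := hpU p (le_refl _)
  obtain ⟨_, ⟨s, rfl⟩, rfl⟩ := hV
  rw [← hBτ] at hrV
  have h1 : r ∈ tv D.g W := tv_mono (subset_iUnion (fun s => B (e s ++ s)) s.reverse) hrV
  have h2 : r ∈ tv D.g (B [] \ W) := tv_down hp hr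
  exact tv_disjoint h1 (tv_mono (fun x hx => hx.2) h2)

end RData

end Pool.Agent.H78.Loc
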