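import Mathlib

/-!
# Null sets of the Cantor space are covered infinitely often by small clopen sets
-/

namespace Pool.Agent.H78.Loc

open Set Filter Topology MeasureTheory TopologicalSpace
open scoped ENNReal

/-- The Cantor space. -/
abbrev Cant := ℕ → Bool

theorem exists_enum : ∃ E : ℕ → Clopens Cant, Function.Surjective E := by
  have : Countable (Clopens Cant) := Clopens.countable_iff_secondCountable.2 inferInstance
  exact exists_surjective_nat _

/-- The exhaustion of an open set by clopen sets. -/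
noncomputable def exh (E : ℕ → Clopens Cant) (G : Set Cant) : ℕ → Clopens Cant
  | 0 => ⊥
  | n + 1 => by
    classical
    exact if (E n : Set Cant) ⊆ G then exh E G n ⊔ E n else exh E G n

theorem exh_mono (E : ℕ → Clopens Cant) (G : Set Cant) : Monotone (exh E G) := by
  refine monotone_nat_of_le_succ fun n => ?_
  rw [exh]
  split_ifs
  · exact le_sup_left
  · exact le_refl _

theorem exh_subset (E : ℕ → Clopens Cant) (G : Set Cant) (n : ℕ) : (exh E G n : Set Cant) ⊆ G := by
  induction n with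
  | zero => simp [exh]
  | succ n ih =>
    rw [exh]
    split_ifs with h
    · rw [Clopens.coe_sup]; exact union_subset ih h
    · exact ih

theorem iUnion_exh {E : ℕ → Clopens Cant} (hE : Function.Surjective E) {G : Set Cant}
    (hG : IsOpen G) : (⋃ n, (exh E G n : Set Cant)) = G := by
  refine subset_antisymm (iUnion_subset fun n => exh_subset E G n) fun y hy => ?_
  obtain ⟨V, hV, hyV, hVG⟩ := isTopologicalBasis_isClopen.exists_subset_of_mem_open hy hG
  obtain ⟨k, hk⟩ := hE ⟨V, hV⟩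
  have hkV : (E k : Set Cant) = V := by rw [hk]; rfl
  refine mem_iUnion.2 ⟨k + 1, ?_⟩
  rw [exh, if_pos (by rw [hkV]; exact hVG), Clopens.coe_sup]
  exact Or.inr (by rw [hkV]; exact hyV)

theorem exists_small {μ : Measure Cant} [IsFiniteMeasure μ] {E : ℕ → Clopens Cant}
    (hE : Function.Surjective E) {G : Set Cant} (hG : IsOpen G) {δ : ℝ≥0∞} (hδ : 0 < δ) :
    ∃ m, ∀ n, m ≤ n → μ (G \ exh E G n) ≤ δ := by
  have hlim : Tendsto (fun n => μ (G \ exh E G n)) atTop (𝓝 (μ (⋂ n, (G \ exh E G n)))) := by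
    refine tendsto_measure_iInter_atTop ?_ ?_ ⟨0, measure_ne_top _ _⟩
    · exact fun n => (hG.measurableSet.diff (exh E G n).isClopen.isOpen.measurableSet).nullMeasurableSet
    · intro m n hmn
      exact sdiff_subset_sdiff_right (exh_mono E G hmn)
  have hemp : (⋂ n, (G \ exh E G n)) = (∅ : Set Cant) := by
    rw [← sdiff_iUnion, iUnion_exh hE hG, sdiff_self]
  rw [hemp, measure_empty] at hlim
  obtain ⟨m, hm⟩ := (hlim.eventually (ge_mem_nhds hδ)).exists_forall_of_atTop
  exact ⟨m, hm⟩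

/-- An open set of small measure is a union of clopen sets with prescribed bounds. -/
theorem exists_blocks {μ : Measure Cant} [IsFiniteMeasure μ] {E : ℕ → Clopens Cant}
    (hE : Function.Surjective E) {G : Set Cant} (hG : IsOpen G) {δ : ℕ → ℝ≥0∞}
    (hδ : ∀ l, 0 < δ l) (h0 : μ G ≤ δ 0) :
    ∃ C : ℕ → Clopens Cant, (∀ l, μ (C l) ≤ δ l) ∧ G ⊆ ⋃ l, (C l : Set Cant) := by
  choose J hJ using fun l => exists_small (μ := μ) hE hG (hδ l)
  let K : ℕ → ℕ := fun l => l + ∑ i ∈ Finset.range (l + 1), J i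
  have hKl : ∀ l, l ≤ K l := fun l => Nat.le_add_right _ _
  have hKJ : ∀ l, J l ≤ K l := fun l =>
    (Finset.single_le_sum (f := J) (fun _ _ => Nat.zero_le _) (Finset.self_mem_range_succ l)).trans
      (Nat.le_add_left _ _)
  let C : ℕ → Clopens Cant := fun l =>
    match l with
    | 0 => exh E G (K 1)
    | l + 1 => exh E G (K (l + 2)) \ exh E G (K (l + 1))
  refine ⟨C, fun l => ?_, fun y hy => ?_⟩
  · cases l with
    | zero => exact (measure_mono (exh_subset E G _)).trans h0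
    | succ l =>
      refine le_trans (measure_mono ?_) (hJ (l + 1) (K (l + 1)) (hKJ _))
      show ((exh E G (K (l + 2)) \ exh E G (K (l + 1)) : Clopens Cant) : Set Cant) ⊆ _
      rw [Clopens.coe_sdiff]
      exact sdiff_subset_sdiff_left (exh_subset E G _)
  · have hex : ∃ m, y ∈ exh E G (K (m + 1)) := by
      have : y ∈ ⋃ n, (exh E G n : Set Cant) := by rwa [iUnion_exh hE hG]
      obtain ⟨n, hn⟩ := mem_iUnion.1 this
      exact ⟨n, exh_mono E G ((Nat.le_succ n).trans (hKl (n + 1))) hn⟩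
    classical
    obtain ⟨m, hm, hmin⟩ : ∃ m, y ∈ exh E G (K (m + 1)) ∧ ∀ k < m, y ∉ exh E G (K (k + 1)) :=
      ⟨Nat.find hex, Nat.find_spec hex, fun k hk => Nat.find_min hex hk⟩
    refine mem_iUnion.2 ⟨m, ?_⟩
    cases m with
    | zero => exact hm
    | succ m =>
      show y ∈ ((exh E G (K (m + 2)) \ exh E G (K (m + 1)) : Clopens Cant) : Set Cant)
      rw [Clopens.coe_sdiff]
      exact ⟨hm, hmin m (Nat.lt_succ_self m)⟩

theorem exists_cover (μ : Measure Cant) [IsFiniteMeasure μ] {E : ℕ → Clopens Cant}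
    (hE : Function.Surjective E) {ε : ℕ → ℝ≥0∞} (hε : ∀ i, 0 < ε i) {N : Set Cant}
    (hN : μ N = 0) :
    ∃ f : ℕ → ℕ, (∀ i, μ (E (f i)) ≤ ε i) ∧ ∀ y ∈ N, ∀ n, ∃ i, n ≤ i ∧ y ∈ E (f i) := by
  have h1 : ∀ k, ∃ G, N ⊆ G ∧ IsOpen G ∧ μ G < ε (Nat.pair k 0) := fun k =>
    N.exists_isOpen_lt_of_lt _ (by rw [hN]; exact hε _)
  choose G hNG hG hμG using h1
  have h2 : ∀ k, ∃ C : ℕ → Clopens Cant, (∀ l, μ (C l) ≤ ε (Nat.pair k l)) ∧
      G k ⊆ ⋃ l, (C l : Set Cant) := fun k =>
    exists_blocks (μ := μ) hE (hG k) (δ := fun l => ε (Nat.pair k l)) (fun l => hε _) (hμG k).le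
  choose C hC hCG using h2
  choose ind hind using hE
  refine ⟨fun i => ind (C i.unpair.1 i.unpair.2), fun i => ?_, fun y hy n => ?_⟩
  · rw [hind]
    have := hC i.unpair.1 i.unpair.2
    rwa [Nat.pair_unpair] at this
  · obtain ⟨l, hl⟩ := mem_iUnion.1 (hCG n (hNG n hy))
    refine ⟨Nat.pair n l, Nat.left_le_pair n l, ?_⟩
    rw [hind, Nat.unpair_pair]
    exact hl

end Pool.Agent.H78.Loc
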