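import Mathlib

/-!
# Localization forcing: definitions

Conditions of localization forcing, the regular open algebra of a preorder, its complete
Boolean subalgebras, and names for Cohen reals.
-/

namespace Pool.Agent.H78.Loc

/-- Regular open subsets of a preorder (a condition `q ≤ p` is stronger than `p`): the
downward closed sets `U` that contain every condition below which they are dense. -/
def IsRegOpen {P : Type*} [Preorder P] (U : Set P) : Prop :=
  (∀ p ∈ U, ∀ q ≤ p, q ∈ U) ∧ ∀ p, (∀ q ≤ p, ∃ r ≤ q, r ∈ U) → p ∈ U

/-- The Boolean complement of a regular open set in the regular open algebra. -/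
def rocompl {P : Type*} [Preorder P] (U : Set P) : Set P := {p | ∀ q ≤ p, q ∉ U}

/-- The supremum, in the regular open algebra, of a family of regular open sets. -/
def rosup {P : Type*} [Preorder P] (A : Set (Set P)) : Set P :=
  {p | ∀ q ≤ p, ∃ r ≤ q, ∃ U ∈ A, r ∈ U}

/-- A complete Boolean subalgebra of the regular open algebra of `P`: a family of regular open
sets closed under complements and under arbitrary suprema. -/
structure CompleteSubalgebra (P : Type*) [Preorder P] where
  carrier : Set (Set P)
  regOpen : ∀ U ∈ carrier, IsRegOpen U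
  compl_mem : ∀ U ∈ carrier, rocompl U ∈ carrier
  sup_mem : ∀ A ⊆ carrier, rosup A ∈ carrier

/-- The subalgebra has no atoms, that is: it forces that its generic filter is not in the
ground model. -/
def CompleteSubalgebra.Atomless {P : Type*} [Preorder P] (B : CompleteSubalgebra P) : Prop :=
  ∀ U ∈ B.carrier, U.Nonempty → ∃ W ∈ B.carrier, W.Nonempty ∧ W ⊂ U

/-- `τ` is a `B`-name, below the nonzero element `U` of `B`, for a Cohen real over the ground
model: `τ s` is the truth value of the statement that the real extends the finite binary string `s`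
(so `τ` of the empty string is `U` and `τ s` is the disjoint supremum of `τ (s0)` and
`τ (s1)`), and the real meets every dense set `D` of finite binary strings of the ground
model. -/
structure IsCohenName {P : Type*} [Preorder P] (B : CompleteSubalgebra P) (U : Set P)
    (τ : List Bool → Set P) : Prop where
  mem : ∀ s, τ s ∈ B.carrier
  nil : τ [] = U
  split : ∀ s, rosup {τ (s ++ [false]), τ (s ++ [true])} = τ s
  disj : ∀ s, τ (s ++ [false]) ∩ τ (s ++ [true]) = ∅
  meets : ∀ D : Set (List Bool), (∀ s, ∃ t ∈ D, s <+: t) → rosup (τ '' D) = U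

/-- Conditions of localization forcing: pairs `(s, F)` where `s = (s(0), …, s(n-1))` is a
sequence of finite sets of natural numbers with `|s(i)| ≤ i`, and `F` is a finite set of
functions `ω → ω` with `|F| ≤ n`. -/
structure LOC where
  stem : List (Finset ℕ)
  side : Finset (ℕ → ℕ)
  stem_card : ∀ i (h : i < stem.length), (stem[i]).card ≤ i
  side_card : side.card ≤ stem.length

/-- `(t, H) ≤ (s, F)` iff `t` end-extends `s`, `H ⊇ F`, and `f(i) ∈ t(i)` for all `f ∈ F` and
all `i` with `|s| ≤ i < |t|`. -/
instance : Preorder LOC where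
  le q p := p.stem <+: q.stem ∧ p.side ⊆ q.side ∧
    ∀ f ∈ p.side, ∀ i (h : i < q.stem.length), p.stem.length ≤ i → f i ∈ q.stem[i]
  le_refl p := ⟨List.prefix_refl _, subset_rfl, fun _ _ i h h' => absurd h (not_lt.2 h')⟩
  le_trans a b c hab hbc := by
    refine ⟨hbc.1.trans hab.1, hbc.2.1.trans hab.2.1, ?_⟩
    intro f hf i hi hci
    by_cases hib : i < b.stem.length
    · have h1 := hbc.2.2 f hf i hib hci
      rwa [hab.1.getElem hib] at h1
    · exact hab.2.2 f (hbc.2.1 hf) i hi (not_lt.1 hib)

theorem LOC.le_def {p q : LOC} : q ≤ p ↔ p.stem <+: q.stem ∧ p.side ⊆ q.side ∧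
    ∀ f ∈ p.side, ∀ i (h : i < q.stem.length), p.stem.length ≤ i → f i ∈ q.stem[i] := Iff.rfl

end Pool.Agent.H78.Loc
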