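import Pool.Agent.H78.Loc.Space

/-!
# Truth values of `g(φ) ∈ B` for a Borel function `g` of the generic slalom
-/

namespace Pool.Agent.H78.Loc

open Set Filter Topology MeasureTheory

instance : MeasurableSpace Slalom := borel Slalom
instance : BorelSpace Slalom := ⟨rfl⟩

/-- The truth value of `g(φ) ∈ B`. -/
def tv (g : Slalom → ℝ) (B : Set ℝ) : Set LOC :=
  {p | ∀ᶠ φ in residual Slalom, φ ∈ nb p → g φ ∈ B}

variable {g : Slalom → ℝ} {B C : Set ℝ} {p q : LOC}

theorem tv_down (h : p ∈ tv g B) (hq : q ≤ p) : q ∈ tv g B := by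
  show ∀ᶠ φ in residual Slalom, φ ∈ nb q → g φ ∈ B
  filter_upwards [show ∀ᶠ φ in residual Slalom, φ ∈ nb p → g φ ∈ B from h] with φ hφ hφq
    using hφ (nb_mono hq hφq)

theorem tv_mono (h : B ⊆ C) : tv g B ⊆ tv g C := by
  intro p hp
  filter_upwards [show ∀ᶠ φ in residual Slalom, φ ∈ nb p → g φ ∈ B from hp] with φ hφ hφp
    using h (hφ hφp)

theorem tv_inter : tv g (B ∩ C) = tv g B ∩ tv g C := by
  ext p
  constructor
  · intro h
    exact ⟨tv_mono inter_subset_left h, tv_mono inter_subset_right h⟩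
  · rintro ⟨h1, h2⟩
    filter_upwards [show ∀ᶠ φ in residual Slalom, φ ∈ nb p → g φ ∈ B from h1,
      show ∀ᶠ φ in residual Slalom, φ ∈ nb p → g φ ∈ C from h2] with φ a b hφ
      using ⟨a hφ, b hφ⟩

theorem tv_iInter {B : ℕ → Set ℝ} (h : ∀ n, p ∈ tv g (B n)) : p ∈ tv g (⋂ n, B n) := by
  have : ∀ᶠ φ in residual Slalom, ∀ n, φ ∈ nb p → g φ ∈ B n :=
    eventually_countable_forall.2 h
  filter_upwards [this] with φ hφ hφp using mem_iInter.2 fun n => hφ n hφp

theorem tv_disjoint (h : p ∈ tv g B) (h' : p ∈ tv g Bᶜ) : False := by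
  have : ∀ᶠ φ in residual Slalom, φ ∉ nb p := by
    filter_upwards [show ∀ᶠ φ in residual Slalom, φ ∈ nb p → g φ ∈ B from h,
      show ∀ᶠ φ in residual Slalom, φ ∈ nb p → g φ ∈ Bᶜ from h'] with φ a b hφ
      using b hφ (a hφ)
  obtain ⟨φ, h1, h2⟩ := exists_mem_nb_of_residual this p
  exact h2 h1

theorem tv_univ : tv g univ = univ := by
  ext p; simp [tv]

theorem tv_empty : tv g ∅ = ∅ := by
  ext p
  simp only [mem_empty_iff_false, iff_false]
  intro h
  have h2 : p ∈ tv g (∅ : Set ℝ)ᶜ := by rw [compl_empty, tv_univ]; trivial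
  exact tv_disjoint h h2

theorem exists_open (hg : Measurable g) (hB : MeasurableSet B) :
    ∃ U : Set Slalom, IsOpen U ∧ ∀ᶠ φ in residual Slalom, (g φ ∈ B ↔ φ ∈ U) := by
  obtain ⟨U, hU, hE⟩ := (hg hB).residualEq_isOpen
  refine ⟨U, hU, ?_⟩
  filter_upwards [hE] with φ hφ
  exact iff_of_eq hφ

theorem tv_decide (hg : Measurable g) (hB : MeasurableSet B) (p : LOC) :
    ∃ q ≤ p, q ∈ tv g B ∨ q ∈ tv g Bᶜ := by
  obtain ⟨U, hU, hE⟩ := exists_open hg hB
  by_cases h : (nb p ∩ U).Nonempty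
  · obtain ⟨q, hq, hsub⟩ := exists_le_nb_subset hU h
    refine ⟨q, hq, Or.inl ?_⟩
    filter_upwards [hE] with φ hφ hφq using hφ.2 (hsub hφq)
  · refine ⟨p, le_refl _, Or.inr ?_⟩
    filter_upwards [hE] with φ hφ hφp hB
    exact h ⟨φ, hφp, hφ.1 hB⟩

theorem tv_dense (hg : Measurable g) (hB : MeasurableSet B)
    (h : ∀ q ≤ p, ∃ r ≤ q, r ∈ tv g B) : p ∈ tv g B := by
  obtain ⟨U, hU, hE⟩ := exists_open hg hB
  have hcl : nb p ⊆ closure U := by
    intro φ hφ
    rw [mem_closure_iff]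
    intro V hV hφV
    obtain ⟨q, hq, hsub⟩ := exists_le_nb_subset (p := p) hV ⟨φ, hφ, hφV⟩
    obtain ⟨r, hr, hrB⟩ := h q hq
    obtain ⟨ψ, h1, h2, h3⟩ := exists_mem_nb_of_residual
      (hE.and (show ∀ᶠ φ in residual Slalom, φ ∈ nb r → g φ ∈ B from hrB)) r
    exact ⟨ψ, hsub (nb_mono hr h1), h2.1 (h3 h1)⟩
  have hfr : ∀ᶠ φ in residual Slalom, φ ∈ closure U → φ ∈ U := by
    have h1 : IsOpen (closure U \ U)ᶜ := by
      rw [isOpen_compl_iff, sdiff_eq]
      exact isClosed_closure.inter hU.isClosed_compl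
    have h2 : Dense (closure U \ U)ᶜ := by
      rw [← interior_eq_empty_iff_dense_compl, ← subset_empty_iff]
      intro x hx
      have hx1 : x ∈ closure U := (interior_subset hx).1
      obtain ⟨y, hy1, hy2⟩ := mem_closure_iff.1 hx1 _ isOpen_interior hx
      exact (interior_subset hy1).2 hy2
    filter_upwards [residual_of_dense_open h1 h2] with φ hφ hcl
    by_contra hn
    exact hφ ⟨hcl, hn⟩
  filter_upwards [hE, hfr] with φ h1 h2 h3
  exact h1.2 (h2 (hcl h3))

theorem isRegOpen_tv (hg : Measurable g) (hB : MeasurableSet B) : IsRegOpen (tv g B) :=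
  ⟨fun _ hp _ hq => tv_down hp hq, fun _ h => tv_dense hg hB h⟩

theorem rocompl_tv (hg : Measurable g) (hB : MeasurableSet B) :
    rocompl (tv g B) = tv g Bᶜ := by
  ext p
  constructor
  · intro h
    refine tv_dense hg hB.compl fun q hq => ?_
    obtain ⟨r, hr, hr' | hr'⟩ := tv_decide hg hB q
    · exact absurd hr' (h r (hr.trans hq))
    · exact ⟨r, hr, hr'⟩
  · intro h q hq hqB
    exact tv_disjoint hqB (tv_down h hq)

/-- If `p` forces `g(φ) ∈ ⋃ B n` then some stronger condition decides the index. -/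
theorem tv_iUnion (hg : Measurable g) {B : ℕ → Set ℝ} (hB : ∀ n, MeasurableSet (B n))
    (h : p ∈ tv g (⋃ n, B n)) : ∃ q ≤ p, ∃ n, q ∈ tv g (B n) := by
  by_contra hcon
  push Not at hcon
  have h1 : ∀ n, p ∈ tv g (B n)ᶜ := by
    intro n
    rw [← rocompl_tv hg (hB n)]
    exact fun q hq => hcon q hq n
  have h2 := tv_iInter h1
  rw [← compl_iUnion] at h2
  exact tv_disjoint h h2

end Pool.Agent.H78.Loc
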