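import Pool.Agent.H78.Loc.Forc
import Pool.Agent.H78.Loc.Cover

/-!
# A Borel function of the generic slalom avoiding all null sets
-/

namespace Pool.Agent.H78.Loc

open Set Filter Topology MeasureTheory TopologicalSpace
open scoped ENNReal

theorem exists_measure : ∃ μ : Measure Cant, IsProbabilityMeasure μ ∧ NullSingletonClass μ := by
  have h1 : ¬Countable ℝ := by
    rw [not_countable_iff]; infer_instance
  have h2 : ¬Countable Cant := by
    intro h
    obtain ⟨f, hf⟩ := exists_surjective_nat Cant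
    obtain ⟨n, hn⟩ := hf fun n => !(f n n)
    have := congrFun hn n
    simp at this
  let e : ℝ ≃ᵐ Cant := PolishSpace.measurableEquivOfNotCountable h1 h2
  let v : Measure ℝ := volume.restrict (Icc 0 1)
  have hv : IsProbabilityMeasure v := ⟨by simp [v]⟩
  refine ⟨v.map e, Measure.isProbabilityMeasure_map e.measurable.aemeasurable, ⟨fun y => ?_⟩⟩
  rw [e.map_apply]
  have : e ⁻¹' {y} = {e.symm y} := by
    ext x
    simp only [mem_preimage, mem_singleton_iff]
    exact ⟨fun h => by rw [← h, e.symm_apply_apply], fun h => by rw [h, e.apply_symm_apply]⟩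
  rw [this]
  exact measure_singleton _

theorem exists_embedding : ∃ c : Cant → ℝ, Continuous c ∧ Function.Injective c := by
  refine ⟨Cardinal.cantorFunction (1 / 3), ?_, Cardinal.cantorFunction_injective (by norm_num)
    (by norm_num)⟩
  have h : Summable fun n : ℕ => ((1 : ℝ) / 3) ^ n :=
    summable_geometric_of_lt_one (by norm_num) (by norm_num)
  refine continuous_tsum (fun n => ?_) h fun n f => ?_
  · have h2 : Continuous fun b : Bool => cond b (((1 : ℝ) / 3) ^ n) 0 := continuous_of_discreteTopology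
    exact h2.comp (continuous_apply n)
  · rw [Real.norm_eq_abs, abs_of_nonneg (Cardinal.cantorFunctionAux_nonneg (by norm_num))]
    unfold Cardinal.cantorFunctionAux
    cases f n
    · simp only [cond_false]; positivity
    · simp only [cond_true]; exact le_refl _

/-- There are an atomless probability measure `ν` on the reals and a Borel function `g` of
slaloms such that for every `ν`-null set `B` comeagre many slaloms `φ` satisfy `g φ ∉ B`. -/
theorem exists_random : ∃ (ν : Measure ℝ) (g : Slalom → ℝ), IsProbabilityMeasure ν ∧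
    NullSingletonClass ν ∧ Measurable g ∧ ∀ B, MeasurableSet B → ν B = 0 →
      ∀ᶠ φ in residual Slalom, g φ ∉ B := by
  obtain ⟨μ, hμ, hna⟩ := exists_measure
  obtain ⟨c, hc, hci⟩ := exists_embedding
  obtain ⟨E, hE⟩ := exists_enum
  obtain ⟨ε, hε, hsum⟩ := ENNReal.exists_pos_tsum_mul_lt_of_countable (ε := 1) one_ne_zero
    (fun i : ℕ => (i : ℝ≥0∞)) (fun i => ENNReal.natCast_ne_top i)
  -- the small open set attached to a slalom
  let U : ℕ → Finset ℕ → Set Cant := fun i a => ⋃ k ∈ {k | k ∈ a ∧ μ (E k) ≤ ε i}, (E k : Set Cant)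
  have hUo : ∀ i a, IsOpen (U i a) := fun i a => isOpen_biUnion fun k _ => (E k).isClopen.isOpen
  have hUm : ∀ i a, μ (U i a) ≤ a.card * ε i := by
    intro i a
    have hsub : U i a ⊆ ⋃ k ∈ a.filter (fun k => μ (E k) ≤ ε i), (E k : Set Cant) := by
      intro y hy
      simp only [U, mem_iUnion, mem_ofPred_eq, exists_prop] at hy
      obtain ⟨k, ⟨h1, h2⟩, h3⟩ := hy
      exact mem_biUnion (Finset.mem_filter.2 ⟨h1, h2⟩) h3
    calc μ (U i a) ≤ μ (⋃ k ∈ a.filter (fun k => μ (E k) ≤ ε i), (E k : Set Cant)) :=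
          measure_mono hsub
      _ ≤ ∑ k ∈ a.filter (fun k => μ (E k) ≤ ε i), μ (E k) := measure_biUnion_finset_le _ _
      _ ≤ ∑ k ∈ a.filter (fun k => μ (E k) ≤ ε i), (ε i : ℝ≥0∞) :=
          Finset.sum_le_sum fun k hk => (Finset.mem_filter.1 hk).2
      _ = (a.filter (fun k => μ (E k) ≤ ε i)).card * ε i := by
          rw [Finset.sum_const, nsmul_eq_mul]
      _ ≤ a.card * ε i := by
          gcongr
          exact Finset.filter_subset _ _
  let O : Slalom → Set Cant := fun φ => ⋃ i, U i (φ.val i)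
  have hOo : ∀ φ, IsOpen (O φ) := fun φ => isOpen_iUnion fun i => hUo i _
  have hOm : ∀ φ, μ (O φ) < 1 := by
    intro φ
    refine lt_of_le_of_lt ((measure_iUnion_le _).trans (ENNReal.tsum_le_tsum fun i => ?_)) hsum
    refine (hUm i _).trans ?_
    gcongr
    exact φ.card_le i
  have hne : ∀ φ, (O φ)ᶜ.Nonempty := by
    intro φ
    rw [nonempty_compl]
    intro h
    have := hOm φ
    rw [h, measure_univ] at this
    exact lt_irrefl _ this
  have hcomp : ∀ φ, IsCompact (c '' (O φ)ᶜ) := fun φ =>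
    ((hOo φ).isClosed_compl.isCompact).image hc
  let g : Slalom → ℝ := fun φ => sInf (c '' (O φ)ᶜ)
  have hgmem : ∀ φ, g φ ∈ c '' (O φ)ᶜ := fun φ => (hcomp φ).sInf_mem ((hne φ).image c)
  have hgle : ∀ φ y, y ∉ O φ → g φ ≤ c y := fun φ y hy =>
    csInf_le (hcomp φ).bddBelow ⟨y, hy, rfl⟩
  have hlsc : LowerSemicontinuous g := by
    rw [lowerSemicontinuous_iff_isOpen_preimage]
    intro a
    rw [isTopologicalBasis_nb.isOpen_iff]
    intro φ hφ
    have hcov : c ⁻¹' Iic a ⊆ ⋃ i, U i (φ.val i) := by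
      intro y hy
      by_contra hn
      exact absurd (hgle φ y hn) (not_le.2 (lt_of_le_of_lt hy hφ))
    have hKc : IsCompact (c ⁻¹' Iic a) := (isClosed_Iic.preimage hc).isCompact
    obtain ⟨t, ht⟩ := hKc.elim_finite_subcover (fun i => U i (φ.val i)) (fun i => hUo i _) hcov
    obtain ⟨m, hm⟩ : ∃ m, ∀ i ∈ t, i < m := ⟨t.sup id + 1, fun i hi =>
      Nat.lt_succ_of_le (Finset.le_sup (f := id) hi)⟩
    refine ⟨nb (rdc φ m ∅ (by simp)), ⟨_, rfl⟩, mem_nb_rdc (by simp), fun ψ hψ => ?_⟩
    have heq : ∀ i, i < m → ψ.val i = φ.val i := fun i hi => by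
      rw [hψ.1 i (by rwa [rdc_length φ m ∅ (Nat.zero_le m)])]
      exact rdc_getElem φ m ∅ _ i _
    obtain ⟨y, hy, hyg⟩ := hgmem ψ
    show a < g ψ
    by_contra hle
    rw [not_lt, ← hyg] at hle
    have h1 := ht (show y ∈ c ⁻¹' Iic a from hle)
    simp only [mem_iUnion, exists_prop] at h1
    obtain ⟨i, hi, hyi⟩ := h1
    refine hy (mem_iUnion.2 ⟨i, ?_⟩)
    rw [heq i (hm i hi)]
    exact hyi
  refine ⟨μ.map c, g, Measure.isProbabilityMeasure_map hc.measurable.aemeasurable, ⟨fun x => ?_⟩,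
    hlsc.measurable, fun B hB hB0 => ?_⟩
  · rw [Measure.map_apply hc.measurable (measurableSet_singleton x)]
    exact (Set.subsingleton_singleton.preimage hci).measure_zero μ
  · rw [Measure.map_apply hc.measurable hB] at hB0
    obtain ⟨f, hf1, hf2⟩ := exists_cover μ hE (ε := fun i => (ε i : ℝ≥0∞))
      (fun i => ENNReal.coe_pos.2 (hε i)) hB0
    filter_upwards [eventually_capture f] with φ hφ hgB
    obtain ⟨n, hn⟩ := hφ
    obtain ⟨y, hy, hyg⟩ := hgmem φ
    obtain ⟨i, hi, hyi⟩ := hf2 y (show c y ∈ B by rw [hyg]; exact hgB) n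
    refine hy (mem_iUnion.2 ⟨i, ?_⟩)
    simp only [U, mem_iUnion, mem_ofPred_eq, exists_prop]
    exact ⟨f i, ⟨hn i hi, hf1 i⟩, hyi⟩

end Pool.Agent.H78.Loc
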