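import Pool.Agent.H78.Loc.Defs

/-!
# The space of slaloms with the topology of localization forcing
-/

namespace Pool.Agent.H78.Loc

open Set Filter Topology

/-- Slaloms: sequences of finite sets with the `i`-th of size at most `i`. -/
structure Slalom where
  val : ℕ → Finset ℕ
  card_le : ∀ i, (val i).card ≤ i

/-- The set of slaloms compatible with a condition. -/
def nb (p : LOC) : Set Slalom :=
  {φ | (∀ i (h : i < p.stem.length), φ.val i = p.stem[i]) ∧
    ∀ f ∈ p.side, ∀ i, p.stem.length ≤ i → f i ∈ φ.val i}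

instance : TopologicalSpace Slalom := TopologicalSpace.generateFrom (Set.range nb)

theorem isOpen_nb (p : LOC) : IsOpen (nb p) :=
  TopologicalSpace.isOpen_generateFrom_of_mem ⟨p, rfl⟩

theorem nb_mono {p q : LOC} (h : q ≤ p) : nb q ⊆ nb p := by
  rintro φ ⟨h1, h2⟩
  refine ⟨fun i hi => ?_, fun f hf i hi => ?_⟩
  · have hi' : i < q.stem.length := lt_of_lt_of_le hi h.1.length_le
    rw [h1 i hi', h.1.getElem hi]
  · by_cases hiq : i < q.stem.length
    · rw [h1 i hiq]; exact h.2.2 f hf i hiq hi
    · exact h2 f (h.2.1 hf) i (not_lt.1 hiq)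

/-- The condition read off from a slalom: stem of length `n`, side `F`. -/
def rdc (φ : Slalom) (n : ℕ) (F : Finset (ℕ → ℕ)) (h : F.card ≤ n) : LOC where
  stem := (List.range n).map φ.val
  side := F
  stem_card := by
    intro i hi
    simp only [List.getElem_map, List.getElem_range]
    exact φ.card_le i
  side_card := by simpa using h

@[simp] theorem rdc_length (φ : Slalom) (n F h) : (rdc φ n F h).stem.length = n := by
  simp [rdc]

theorem rdc_getElem (φ : Slalom) (n F h) (i) (hi : i < (rdc φ n F h).stem.length) :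
    (rdc φ n F h).stem[i] = φ.val i := by
  simp [rdc]

theorem mem_nb_rdc {φ : Slalom} {n F h} (hF : ∀ f ∈ F, ∀ i, n ≤ i → f i ∈ φ.val i) :
    φ ∈ nb (rdc φ n F h) := by
  refine ⟨fun i hi => (rdc_getElem φ n F h i hi).symm, fun f hf i hi => ?_⟩
  rw [rdc_length] at hi
  exact hF f hf i hi

/-- Every condition has a slalom in its neighbourhood. -/
theorem rdc_le {φ : Slalom} {p : LOC} (hφ : φ ∈ nb p) {n F h} (hn : p.stem.length ≤ n)
    (hF : p.side ⊆ F) : rdc φ n F h ≤ p := by
  refine ⟨?_, hF, fun f hf i hi hpi => ?_⟩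
  · rw [List.prefix_iff_getElem]
    refine ⟨by simpa using hn, fun i hi => ?_⟩
    rw [rdc_getElem, hφ.1 i hi]
  · rw [rdc_getElem]
    exact hφ.2 f hf i hpi

theorem exists_le_le {φ : Slalom} {p q : LOC} (hp : φ ∈ nb p) (hq : φ ∈ nb q) :
    ∃ r, r ≤ p ∧ r ≤ q ∧ φ ∈ nb r := by
  classical
  set F := p.side ∪ q.side with hF
  set n := p.stem.length + q.stem.length with hn
  have hc : F.card ≤ n := (Finset.card_union_le _ _).trans (add_le_add p.side_card q.side_card)
  refine ⟨rdc φ n F hc, rdc_le hp (by omega) Finset.subset_union_left,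
    rdc_le hq (by omega) Finset.subset_union_right, mem_nb_rdc ?_⟩
  intro f hf i hi
  rcases Finset.mem_union.1 hf with h | h
  · exact hp.2 f h i (by omega)
  · exact hq.2 f h i (by omega)

/-- The conditions form a basis. -/
theorem isTopologicalBasis_nb : TopologicalSpace.IsTopologicalBasis (Set.range nb) where
  exists_subset_inter := by
    rintro _ ⟨p, rfl⟩ _ ⟨q, rfl⟩ φ ⟨hp, hq⟩
    obtain ⟨r, h1, h2, h3⟩ := exists_le_le hp hq
    exact ⟨nb r, ⟨r, rfl⟩, h3, subset_inter (nb_mono h1) (nb_mono h2)⟩
  sUnion_eq := by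
    refine eq_univ_of_forall fun φ => ⟨nb (rdc φ 0 ∅ (by simp)), ⟨_, rfl⟩, mem_nb_rdc (by simp)⟩
  eq_generateFrom := rfl

/-- Extend a condition: one more coordinate. -/
theorem exists_extend (p : LOC) : ∃ q, q ≤ p ∧ q.stem.length = p.stem.length + 1 ∧
    q.side = p.side := by
  classical
  refine ⟨⟨p.stem ++ [p.side.image (fun f => f p.stem.length)], p.side, ?_, ?_⟩, ⟨?_, ?_, ?_⟩,
    ?_, rfl⟩
  · intro i hi
    rw [List.length_append, List.length_singleton] at hi
    by_cases h : i < p.stem.length
    · rw [List.getElem_append_left h]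
      exact p.stem_card i h
    · have : i = p.stem.length := by omega
      subst this
      rw [List.getElem_append_right (le_refl _)]
      simp only [Nat.sub_self, List.getElem_singleton]
      exact Finset.card_image_le.trans p.side_card
  · rw [List.length_append, List.length_singleton]
    exact p.side_card.trans (Nat.le_succ _)
  · exact List.prefix_append _ _
  · exact subset_rfl
  · intro f hf i hi hpi
    simp only [List.length_append, List.length_singleton] at hi
    have : i = p.stem.length := by omega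
    subst this
    simp only [List.getElem_append_right (le_refl p.stem.length), Nat.sub_self,
      List.getElem_singleton]
    exact Finset.mem_image_of_mem _ hf
  · simp

theorem exists_add_side (p : LOC) (f : ℕ → ℕ) : ∃ q, q ≤ p ∧ f ∈ q.side := by
  classical
  obtain ⟨q, hqp, hlen, hside⟩ := exists_extend p
  refine ⟨⟨q.stem, insert f q.side, q.stem_card, ?_⟩, ⟨hqp.1, ?_, ?_⟩, Finset.mem_insert_self _ _⟩
  · refine (Finset.card_insert_le _ _).trans ?_
    have := p.side_card
    rw [hlen, hside]; omega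
  · exact hqp.2.1.trans (Finset.subset_insert _ _)
  · exact hqp.2.2

/-- A descending sequence of conditions with unbounded stems has a slalom below all. -/
theorem exists_mem_iInter_nb (p : ℕ → LOC) (hp : ∀ n, p (n + 1) ≤ p n)
    (hl : ∀ n, n ≤ (p n).stem.length) : ∃ φ, ∀ n, φ ∈ nb (p n) := by
  have hmono : ∀ m n, m ≤ n → p n ≤ p m := fun m n h => by
    induction h with
    | refl => exact le_refl _
    | step _ ih => exact (hp _).trans ih
  have hlt : ∀ i, i < (p (i + 1)).stem.length := fun i => hl (i + 1)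
  let φ : Slalom := ⟨fun i => (p (i + 1)).stem[i]'(hlt i), fun i => (p (i + 1)).stem_card i (hlt i)⟩
  have key : ∀ n i (h : i < (p n).stem.length), φ.val i = (p n).stem[i] := by
    intro n i h
    show (p (i + 1)).stem[i]'(hlt i) = _
    rcases le_total n (i + 1) with h1 | h1
    · have := (hmono _ _ h1).1.getElem h
      rw [this]
    · have := (hmono _ _ h1).1.getElem (hlt i)
      rw [this]
  refine ⟨φ, fun n => ⟨key n, fun f hf i hi => ?_⟩⟩
  have hm : n ≤ n + (i + 1) := Nat.le_add_right _ _
  have hlen : i < (p (n + (i + 1))).stem.length := lt_of_lt_of_le (by omega) (hl _)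
  rw [key _ i hlen]
  exact (hmono _ _ hm).2.2 f hf i hlen hi

theorem nb_nonempty (p : LOC) : (nb p).Nonempty := by
  choose e he using fun q : LOC => exists_extend q
  let s : ℕ → LOC := fun n => Nat.rec p (fun _ q => e q) n
  have hs : ∀ n, s (n + 1) ≤ s n := fun n => (he (s n)).1
  have hl : ∀ n, n ≤ (s n).stem.length := by
    intro n
    induction n with
    | zero => exact Nat.zero_le _
    | succ n ih =>
      have := (he (s n)).2.1
      show n + 1 ≤ (e (s n)).stem.length
      omega
  obtain ⟨φ, hφ⟩ := exists_mem_iInter_nb s hs hl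
  exact ⟨φ, hφ 0⟩

theorem exists_le_nb_subset {p : LOC} {U : Set Slalom} (hU : IsOpen U)
    (h : (nb p ∩ U).Nonempty) : ∃ q ≤ p, nb q ⊆ U := by
  obtain ⟨φ, hφp, hφU⟩ := h
  obtain ⟨_, ⟨q', rfl⟩, hq', hsub⟩ := isTopologicalBasis_nb.exists_subset_of_mem_open hφU hU
  obtain ⟨r, h1, h2, _⟩ := exists_le_le hφp hq'
  exact ⟨r, h1, (nb_mono h2).trans hsub⟩

instance : BaireSpace Slalom where
  baire_property := by
    intro f ho hd
    rw [isTopologicalBasis_nb.dense_iff]
    rintro _ ⟨p, rfl⟩ _
    have step : ∀ n (q : LOC), ∃ r, r ≤ q ∧ nb r ⊆ f n ∧ q.stem.length + 1 ≤ r.stem.length := by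
      intro n q
      obtain ⟨q', h1, h2, _⟩ := exists_extend q
      have hne : (nb q' ∩ f n).Nonempty := by
        have := (hd n).inter_open_nonempty _ (isOpen_nb q') (nb_nonempty q')
        exact this
      obtain ⟨r, hr, hsub⟩ := exists_le_nb_subset (ho n) hne
      exact ⟨r, hr.trans h1, hsub, h2 ▸ hr.1.length_le⟩
    choose e he1 he2 he3 using step
    let s : ℕ → LOC := fun n => Nat.rec p (fun n q => e n q) n
    have hs : ∀ n, s (n + 1) ≤ s n := fun n => he1 n (s n)
    have hl : ∀ n, n ≤ (s n).stem.length := by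
      intro n
      induction n with
      | zero => exact Nat.zero_le _
      | succ n ih =>
        have := he3 n (s n)
        show n + 1 ≤ (e n (s n)).stem.length
        omega
    obtain ⟨φ, hφ⟩ := exists_mem_iInter_nb s hs hl
    exact ⟨φ, hφ 0, mem_iInter.2 fun n => he2 n (s n) (hφ (n + 1))⟩

/-- Comeagre many slaloms capture a given function. -/
theorem eventually_capture (f : ℕ → ℕ) :
    ∀ᶠ φ in residual Slalom, ∃ n, ∀ i, n ≤ i → f i ∈ φ.val i := by
  have hopen : IsOpen (⋃ p ∈ {p : LOC | f ∈ p.side}, nb p) :=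
    isOpen_biUnion fun p _ => isOpen_nb p
  have hdense : Dense (⋃ p ∈ {p : LOC | f ∈ p.side}, nb p) := by
    rw [isTopologicalBasis_nb.dense_iff]
    rintro _ ⟨p, rfl⟩ _
    obtain ⟨q, hq, hf⟩ := exists_add_side p f
    obtain ⟨φ, hφ⟩ := nb_nonempty q
    exact ⟨φ, nb_mono hq hφ, mem_biUnion (show q ∈ {p : LOC | f ∈ p.side} from hf) hφ⟩
  refine Filter.mem_of_superset (residual_of_dense_open hopen hdense) ?_
  intro φ hφ
  simp only [mem_iUnion, mem_ofPred_eq, exists_prop] at hφ
  obtain ⟨p, hp, hφp⟩ := hφ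
  exact ⟨p.stem.length, fun i hi => hφp.2 f hp i hi⟩

/-- A property of comeagre many slaloms holds somewhere in every neighbourhood. -/
theorem exists_mem_nb_of_residual {S : Slalom → Prop} (h : ∀ᶠ φ in residual Slalom, S φ)
    (p : LOC) : ∃ φ ∈ nb p, S φ := by
  have hd : Dense {φ | S φ} := dense_of_mem_residual h
  obtain ⟨φ, h1, h2⟩ := hd.inter_open_nonempty _ (isOpen_nb p) (nb_nonempty p)
  exact ⟨φ, h1, h2⟩

end Pool.Agent.H78.Loc
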